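import Pool.Agent.Helper16.CZ.Stmts

/-! Furstenberg towers (MP_7a8f48_an): module TEQ. -/

set_option autoImplicit false

open Finset Filter MeasureTheory Topology
open scoped ComplexConjugate InnerProductSpace

namespace Pool.Agent.Helper16.CZ

open Pool.Agent.Helper16.AZ (T E Op mm ST_VDH ST_FPV ST_TLR)
open Pool.Agent.Helper16.BZ (EQ GR PD)
open Pool.Agent.Helper16.MD (MS PB Am RW Rich)
open UnitAddTorus (mFourier)

theorem teq_avg (a : ℕ → ℂ) (L : ℂ)
    (h : Tendsto (fun M : ℕ => (∑ y ∈ Icc 1 M, a y) / (M : ℂ)) atTop (𝓝 L)) :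
    Tendsto (fun N : ℕ => (∑ n ∈ range N, a n) / (N : ℂ)) atTop (𝓝 L) := by
  rw [← tendsto_add_atTop_iff_nat 1]
  have h1 : Tendsto (fun M : ℕ => a 0 * (1 / ((M : ℂ) + 1)) +
      (∑ y ∈ Icc 1 M, a y) / (M : ℂ) * ((M : ℂ) / ((M : ℂ) + 1))) atTop
      (𝓝 (a 0 * 0 + L * 1)) := by
    refine (tendsto_const_nhds.mul tendsto_one_div_add_atTop_nhds_zero_nat).add (h.mul ?_)
    exact tendsto_natCast_div_add_atTop 1
  rw [mul_zero, zero_add, mul_one] at h1
  refine h1.congr' ?_
  filter_upwards [eventually_ge_atTop 1] with M hM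
  have hM0 : (M : ℂ) ≠ 0 := by
    have : M ≠ 0 := by omega
    exact_mod_cast this
  have hM1 : (M : ℂ) + 1 ≠ 0 := by
    have : M + 1 ≠ 0 := by omega
    exact_mod_cast this
  have h2 : ∑ n ∈ range (M + 1), a n = a 0 + ∑ y ∈ Icc 1 M, a y := by
    rw [Finset.sum_range_succ', add_comm]
    congr 1
    rw [← Finset.sum_image (f := a) (g := fun n => n + 1) (s := range M)
      (fun x _ y _ hxy => by simpa using hxy)]
    refine Finset.sum_congr ?_ fun _ _ => rfl
    ext n
    simp only [Finset.mem_image, Finset.mem_range, Finset.mem_Icc]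
    constructor
    · rintro ⟨k, hk, rfl⟩
      omega
    · intro hn
      exact ⟨n - 1, by omega, by omega⟩
  rw [h2]
  push_cast
  field_simp

theorem st_TEQ (h1 : ST_TEL) (h2 : ST_TPO) : ST_TEQ := by
  intro r lev D ψ S hT p hp F hF x
  have h3 := (h1 r lev D ψ S hT (∑ i, lev i) (fun k _ => h2 r lev D ψ S hT k)).2 p F hp hF
    (fun x y hxy => by
      have : x = y := funext fun j => hxy j
        (Finset.single_le_sum (f := lev) (fun i _ => Nat.zero_le _) (Finset.mem_univ j))
      rw [this]) x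
  exact teq_avg (fun n => F (S^[p * n] x)) _ h3

end Pool.Agent.Helper16.CZ
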